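import Mathlib

set_option autoImplicit false

/-!
Strong d-spaces: definitions.
-/

universe u

namespace Q178.StrongD

/-- The specialization order of a topological space: `x` is below `y` iff `x` lies in the
closure of `{y}`. -/
def SpecLE {X : Type u} [TopologicalSpace X] (x y : X) : Prop :=
  x ∈ closure ({y} : Set X)

/-- The set of all points above `x` in the specialization order. -/
def up {X : Type u} [TopologicalSpace X] (x : X) : Set X :=
  {y | SpecLE x y}

/-- A set is directed (in the specialization order) if it is nonempty and any two of its
elements have an upper bound in the set. -/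
def IsDir {X : Type u} [TopologicalSpace X] (D : Set X) : Prop :=
  D.Nonempty ∧ ∀ x ∈ D, ∀ y ∈ D, ∃ z ∈ D, SpecLE x z ∧ SpecLE y z

/-- A strong d-space: a T0 space such that for every directed set `D`, every point `x` and every
open set `U`, if the intersection of all `up d` (`d ∈ D`) and `up x` lies in `U`, then
`up d ∩ up x` lies in `U` for some `d ∈ D`. -/
structure IsStrongDSpace (X : Type u) [TopologicalSpace X] : Prop where
  t0 : T0Space X
  strong : ∀ D : Set X, IsDir D → ∀ (x : X) (U : Set X), IsOpen U →
    (⋂ d ∈ D, up d) ∩ up x ⊆ U → ∃ d ∈ D, up d ∩ up x ⊆ U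

end Q178.StrongD
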