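import Pool.Agent.Q178.StrongD.Defs

set_option autoImplicit false

/-!
A strong d-space `Z` none of whose nontrivial powers and pointwise function spaces is a strong
d-space.
-/

universe u v w

namespace Q178.StrongD

open Set Topology
open scoped Ordinal

/-! ### The index set -/

/-- The index set, the first uncountable ordinal. -/
abbrev Lam : Type := (ω₁ : Ordinal.{0}).ToType

lemma bdd_seq (s : ℕ → Lam) : ∃ μ : Lam, ∀ n, s n ≤ μ := by
  have h : ∀ n, ((Ordinal.ToType.mk.symm (s n) : Iio (ω₁ : Ordinal.{0})) : Ordinal.{0}) < ω₁ :=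
    fun n => (Ordinal.ToType.mk.symm (s n)).2
  have hsup := Ordinal.iSup_lt_omega_one h
  refine ⟨Ordinal.ToType.mk ⟨_, hsup⟩, fun n => ?_⟩
  rw [← Ordinal.ToType.mk.symm_apply_le]
  rw [← Subtype.coe_le_coe]
  exact Ordinal.le_iSup (fun n => ((Ordinal.ToType.mk.symm (s n) : Iio (ω₁ : Ordinal.{0})) :
    Ordinal.{0})) n

instance : NoMaxOrder Lam := by
  rw [← Ordinal.isSuccPrelimit_type_lt_iff, Ordinal.type_toType]
  exact (Cardinal.isSuccLimit_omega 1).isSuccPrelimit

/-- An unbounded subset of the index set has a limit point. -/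
lemma exists_limit {B : Set Lam} (hB : ∀ δ, ∃ β ∈ B, δ < β) :
    ∃ μ : Lam, (∃ γ, γ < μ) ∧ ∀ γ < μ, ∃ β ∈ B, γ < β ∧ β < μ := by
  classical
  choose f hfB hf using hB
  obtain ⟨δ0⟩ : Nonempty Lam := ⟨Ordinal.ToType.mk ⟨0, Ordinal.omega_pos 1⟩⟩
  let s : ℕ → Lam := fun n => f^[n + 1] δ0
  have hs : ∀ n, s n < s (n + 1) := by
    intro n
    have : s (n + 1) = f (s n) := Function.iterate_succ_apply' f (n + 1) δ0
    rw [this]
    exact hf _
  have hsB : ∀ n, s n ∈ B := by
    intro n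
    have : s n = f (f^[n] δ0) := Function.iterate_succ_apply' f n δ0
    rw [this]
    exact hfB _
  let μ : Lam := wellFounded_lt.min {μ | ∀ n, s n ≤ μ} (bdd_seq s)
  have hμ : ∀ n, s n ≤ μ := wellFounded_lt.min_mem {μ | ∀ n, s n ≤ μ} (bdd_seq s)
  have hμ' : ∀ n, s n < μ := fun n => (hs n).trans_le (hμ (n + 1))
  refine ⟨μ, ⟨s 0, hμ' 0⟩, fun γ hγ => ?_⟩
  have h1 : γ ∉ {μ | ∀ n, s n ≤ μ} := fun h => wellFounded_lt.not_lt_min _ h hγ
  simp only [mem_ofPred_eq, not_forall, not_le] at h1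
  obtain ⟨n, hn⟩ := h1
  exact ⟨s n, hsB n, hn, hμ' n⟩

/-! ### The space -/

/-- The points of the space. -/
inductive Z : Type
  | o : Z
  | l : WithTop Lam → Z
  | y : Z
  | b : Lam → Z
  | a : Lam → Z

open Z

/-- The order of the space. -/
def le : Z → Z → Prop
  | o, _ => True
  | l α, l α' => α ≤ α'
  | l α, b β => α ≤ (β : WithTop Lam)
  | l _, a _ => True
  | y, y => True
  | y, b _ => True
  | y, a _ => True
  | b β, b β' => β = β'
  | a β, a β' => β = β'
  | _, _ => False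

lemma le_rfl' (p : Z) : le p p := by
  cases p <;> simp [le]

lemma le_trans' {p q r : Z} (h : le p q) (h' : le q r) : le p r := by
  cases p <;> cases q <;> cases r <;> simp only [le] at h h' ⊢ <;>
    first
      | exact h.trans h'
      | (subst h'; exact h)

lemma le_antisymm' {p q : Z} (h : le p q) (h' : le q p) : p = q := by
  cases p <;> cases q <;> simp only [le] at h h' ⊢
  · exact congrArg l (le_antisymm h h')
  · exact congrArg b h
  · exact congrArg a h

/-- Open sets of the space. -/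
structure OpenZ (W : Set Z) : Prop where
  upper : ∀ p q, le p q → p ∈ W → q ∈ W
  chain : ∀ α, l α ∈ W → (∀ α', l α' ∈ W) ∨ ∃ γ, γ < α ∧ ∀ α', γ < α' → l α' ∈ W
  lim : ∀ μ, a μ ∈ W → (∀ γ, ¬ γ < μ) ∨ ∃ γ, γ < μ ∧ ∀ β, γ < β → β < μ → b β ∈ W

instance : TopologicalSpace Z where
  IsOpen := OpenZ
  isOpen_univ := ⟨fun _ _ _ _ => trivial, fun _ _ => Or.inl fun _ => trivial, fun μ _ => by
    by_cases h : ∃ γ, γ < μ
    · obtain ⟨γ, hγ⟩ := h
      exact Or.inr ⟨γ, hγ, fun _ _ _ => trivial⟩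
    · push Not at h
      exact Or.inl fun γ => not_lt.2 (h γ)⟩
  isOpen_inter := by
    intro U V hU hV
    refine ⟨fun p q hpq hp => ⟨hU.upper p q hpq hp.1, hV.upper p q hpq hp.2⟩, ?_, ?_⟩
    · rintro α ⟨hαU, hαV⟩
      rcases hU.chain α hαU with h1 | ⟨γ, hγ, h1⟩ <;> rcases hV.chain α hαV with h2 | ⟨δ, hδ, h2⟩
      · exact Or.inl fun α' => ⟨h1 α', h2 α'⟩
      · exact Or.inr ⟨δ, hδ, fun α' h => ⟨h1 α', h2 α' h⟩⟩
      · exact Or.inr ⟨γ, hγ, fun α' h => ⟨h1 α' h, h2 α'⟩⟩
      · exact Or.inr ⟨max γ δ, max_lt hγ hδ, fun α' h =>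
          ⟨h1 α' ((le_max_left _ _).trans_lt h), h2 α' ((le_max_right _ _).trans_lt h)⟩⟩
    · rintro μ ⟨hμU, hμV⟩
      rcases hU.lim μ hμU with h1 | ⟨γ, hγ, h1⟩
      · exact Or.inl h1
      · rcases hV.lim μ hμV with h2 | ⟨δ, hδ, h2⟩
        · exact Or.inl h2
        · exact Or.inr ⟨max γ δ, max_lt hγ hδ, fun β h h' =>
            ⟨h1 β ((le_max_left _ _).trans_lt h) h', h2 β ((le_max_right _ _).trans_lt h) h'⟩⟩
  isOpen_sUnion := by
    intro S hS
    refine ⟨?_, ?_, ?_⟩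
    · rintro p q hpq ⟨U, hU, hp⟩
      exact ⟨U, hU, (hS U hU).upper p q hpq hp⟩
    · rintro α ⟨U, hU, hα⟩
      rcases (hS U hU).chain α hα with h | ⟨γ, hγ, h⟩
      · exact Or.inl fun α' => ⟨U, hU, h α'⟩
      · exact Or.inr ⟨γ, hγ, fun α' h' => ⟨U, hU, h α' h'⟩⟩
    · rintro μ ⟨U, hU, hμ⟩
      rcases (hS U hU).lim μ hμ with h | ⟨γ, hγ, h⟩
      · exact Or.inl h
      · exact Or.inr ⟨γ, hγ, fun β h1 h2 => ⟨U, hU, h β h1 h2⟩⟩

lemma isOpen_iff {W : Set Z} : IsOpen W ↔ OpenZ W := Iff.rfl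

/-- The complement of the set of points below `q` is open. -/
lemma openZ_compl_down (q : Z) : OpenZ {p | ¬ le p q} := by
  refine ⟨fun p r hpr hp hr => hp (le_trans' hpr hr), ?_, ?_⟩
  · intro α hα
    rw [mem_ofPred_eq] at hα
    cases q with
    | o => left; intro α'; simp [le]
    | l α0 =>
      right
      simp only [le, not_le] at hα
      exact ⟨α0, hα, fun α' h => by simpa [le] using h⟩
    | y => left; intro α'; simp [le]
    | b β =>
      right
      simp only [le, not_le] at hα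
      exact ⟨β, hα, fun α' h => by simpa [le] using h⟩
    | a β => simp [le] at hα
  · intro μ _
    by_cases h : ∃ γ, γ < μ
    · obtain ⟨γ0, hγ0⟩ := h
      right
      cases q with
      | b β =>
        by_cases hβ : β < μ
        · refine ⟨β, hβ, fun β' h _ => ?_⟩
          simp only [mem_ofPred_eq, le]
          exact h.ne'
        · refine ⟨γ0, hγ0, fun β' _ h => ?_⟩
          simp only [mem_ofPred_eq, le]
          rintro rfl
          exact hβ h
      | o => exact ⟨γ0, hγ0, fun β' _ _ => by simp [le]⟩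
      | l _ => exact ⟨γ0, hγ0, fun β' _ _ => by simp [le]⟩
      | y => exact ⟨γ0, hγ0, fun β' _ _ => by simp [le]⟩
      | a _ => exact ⟨γ0, hγ0, fun β' _ _ => by simp [le]⟩
    · push Not at h
      exact Or.inl fun γ => not_lt.2 (h γ)

lemma specLE_iff {p q : Z} : SpecLE p q ↔ le p q := by
  constructor
  · intro h
    by_contra hn
    obtain ⟨r, hr, hr'⟩ := mem_closure_iff.1 h _ (isOpen_iff.2 (openZ_compl_down q)) hn
    rw [mem_singleton_iff] at hr'
    subst hr'
    exact hr (le_rfl' r)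
  · intro h
    rw [SpecLE, mem_closure_iff]
    intro W hW hp
    exact ⟨q, (isOpen_iff.1 hW).upper p q h hp, rfl⟩

instance : T0Space Z := by
  refine ⟨fun p q h => ?_⟩
  rw [inseparable_iff_mem_closure] at h
  exact le_antisymm' (specLE_iff.1 h.1) (specLE_iff.1 h.2)

lemma mem_up {p q : Z} : q ∈ up p ↔ le p q := specLE_iff

/-- The open set of all maximal points `a μ`, `b β`, together with the chain points above `γ`. -/
lemma openZ_V (γ : Lam) : OpenZ {p | (∃ α, (γ : WithTop Lam) < α ∧ p = l α) ∨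
    (∃ β, p = b β) ∨ ∃ μ, p = a μ} := by
  refine ⟨?_, ?_, ?_⟩
  · rintro p q hpq (⟨α, hα, rfl⟩ | ⟨β, rfl⟩ | ⟨μ, rfl⟩) <;> cases q <;> simp only [le] at hpq
    · exact Or.inl ⟨_, hα.trans_le hpq, rfl⟩
    · exact Or.inr (Or.inl ⟨_, rfl⟩)
    · exact Or.inr (Or.inr ⟨_, rfl⟩)
    · exact Or.inr (Or.inl ⟨_, rfl⟩)
    · exact Or.inr (Or.inr ⟨_, rfl⟩)
  · rintro α (⟨α', hα, h⟩ | ⟨β, h⟩ | ⟨μ, h⟩)
    · right
      simp only [Z.l.injEq] at h
      subst h
      exact ⟨γ, hα, fun α' h => Or.inl ⟨α', h, rfl⟩⟩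
    · simp at h
    · simp at h
  · intro μ _
    by_cases h : ∃ γ, γ < μ
    · obtain ⟨γ0, hγ0⟩ := h
      exact Or.inr ⟨γ0, hγ0, fun β _ _ => Or.inr (Or.inl ⟨β, rfl⟩)⟩
    · push Not at h
      exact Or.inl fun γ => not_lt.2 (h γ)

/-- The open set consisting of `a γ` and all `b β` with `β < γ`. -/
lemma openZ_W (γ : Lam) : OpenZ {p | p = a γ ∨ ∃ β, β < γ ∧ p = b β} := by
  refine ⟨?_, ?_, ?_⟩
  · rintro p q hpq (rfl | ⟨β, hβ, rfl⟩) <;> cases q <;> simp only [le] at hpq
    · left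
      rw [hpq]
    · right
      exact ⟨β, hβ, by rw [hpq]⟩
  · rintro α (h | ⟨β, hβ, h⟩)
    · simp at h
    · simp at h
  · rintro μ (h | ⟨β, hβ, h⟩)
    · simp only [Z.a.injEq] at h
      subst h
      by_cases h : ∃ γ, γ < μ
      · obtain ⟨γ0, hγ0⟩ := h
        exact Or.inr ⟨γ0, hγ0, fun β _ h => Or.inr ⟨β, h, rfl⟩⟩
      · push Not at h
        exact Or.inl fun γ => not_lt.2 (h γ)
    · simp at h

/-! ### The space is a strong d-space -/

lemma strong (D : Set Z) (hD : IsDir D) (x : Z) (W : Set Z) (hW : IsOpen W)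
    (h : (⋂ d ∈ D, up d) ∩ up x ⊆ W) : ∃ d ∈ D, up d ∩ up x ⊆ W := by
  classical
  have hW' : OpenZ W := hW
  have hin : ∀ z, (∀ d ∈ D, le d z) → le x z → z ∈ W := by
    intro z h1 h2
    apply h
    exact ⟨mem_iInter₂.2 fun d hd => mem_up.2 (h1 d hd), mem_up.2 h2⟩
  obtain ⟨⟨d0, hd0⟩, hdir⟩ := hD
  have hdir' : ∀ p ∈ D, ∀ q ∈ D, ∃ r ∈ D, le p r ∧ le q r := by
    intro p hp q hq
    obtain ⟨r, hr, h1, h2⟩ := hdir p hp q hq
    exact ⟨r, hr, specLE_iff.1 h1, specLE_iff.1 h2⟩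
  by_cases hmax : ∃ m ∈ D, ∀ d ∈ D, le d m
  · obtain ⟨m, hm, hmD⟩ := hmax
    refine ⟨m, hm, ?_⟩
    rintro z ⟨h1, h2⟩
    exact hin z (fun d hd => le_trans' (hmD d hd) (mem_up.1 h1)) (mem_up.1 h2)
  push Not at hmax
  -- `D` contains no maximal point
  have hb : ∀ β, b β ∉ D := by
    intro β hβ
    obtain ⟨d, hd, hdb⟩ := hmax _ hβ
    obtain ⟨r, hr, h1, h2⟩ := hdir' _ hβ d hd
    cases r <;> simp only [le] at h1
    subst h1
    exact hdb h2
  have ha : ∀ μ, a μ ∉ D := by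
    intro μ hμ
    obtain ⟨d, hd, hdb⟩ := hmax _ hμ
    obtain ⟨r, hr, h1, h2⟩ := hdir' _ hμ d hd
    cases r <;> simp only [le] at h1
    subst h1
    exact hdb h2
  have hy : y ∉ D := by
    intro hy
    obtain ⟨d, hd, hdb⟩ := hmax _ hy
    obtain ⟨r, hr, h1, h2⟩ := hdir' _ hy d hd
    cases r with
    | o => simp only [le] at h1
    | l _ => simp only [le] at h1
    | y => exact hdb h2
    | b β => exact hb β hr
    | a μ => exact ha μ hr
  let A : Set (WithTop Lam) := {α | l α ∈ D}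
  have hform : ∀ d ∈ D, d = o ∨ ∃ α ∈ A, d = l α := by
    intro d hd
    cases d with
    | o => exact Or.inl rfl
    | l α => exact Or.inr ⟨α, hd, rfl⟩
    | y => exact absurd hd hy
    | b β => exact absurd hd (hb β)
    | a μ => exact absurd hd (ha μ)
  have hub : ∀ z, (∀ α ∈ A, le (l α) z) → ∀ d ∈ D, le d z := by
    intro z hz d hd
    rcases hform d hd with rfl | ⟨α, hα, rfl⟩
    · simp [le]
    · exact hz α hα
  have hAne : A.Nonempty := by
    by_contra hne
    rw [not_nonempty_iff_eq_empty] at hne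
    obtain ⟨d, hd, hdo⟩ := hmax d0 hd0
    rcases hform d hd with rfl | ⟨α, hα, rfl⟩
    · simp [le] at hdo
    · rw [hne] at hα
      exact hα
  have hAmax : ∀ α ∈ A, ∃ α' ∈ A, α < α' := by
    intro α hα
    obtain ⟨d, hd, hdb⟩ := hmax _ hα
    rcases hform d hd with rfl | ⟨α', hα', rfl⟩
    · simp [le] at hdb
    · simp only [le, not_le] at hdb
      exact ⟨α', hα', hdb⟩
  -- the supremum of the chain
  have hUne : {s : WithTop Lam | ∀ α ∈ A, α ≤ s}.Nonempty := ⟨⊤, fun _ _ => le_top⟩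
  obtain ⟨s, hsU, hsmin⟩ : ∃ s : WithTop Lam, (∀ α ∈ A, α ≤ s) ∧
      ∀ γ, γ < s → ∃ α ∈ A, γ < α := by
    refine ⟨wellFounded_lt.min _ hUne, wellFounded_lt.min_mem _ hUne, fun γ hγ => ?_⟩
    have h1 : γ ∉ {s : WithTop Lam | ∀ α ∈ A, α ≤ s} := fun h =>
      wellFounded_lt.not_lt_min _ h hγ
    simp only [mem_ofPred_eq, not_forall, not_le] at h1
    obtain ⟨α, hα, h1⟩ := h1
    exact ⟨α, hα, h1⟩
  have hslt : ∀ α ∈ A, α < s := by
    intro α hα
    obtain ⟨α', hα', h1⟩ := hAmax α hα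
    exact h1.trans_le (hsU α' hα')
  -- the case of `x` below `l s`
  have hcase : le x (l s) → ∃ d ∈ D, up d ∩ up x ⊆ W := by
    intro hx
    have hlW : l s ∈ W := hin (l s) (hub _ fun α hα => hsU α hα) hx
    have hex : ∃ α ∈ A, l α ∈ W := by
      rcases hW'.chain s hlW with h1 | ⟨γ, hγ, h1⟩
      · obtain ⟨α, hα⟩ := hAne
        exact ⟨α, hα, h1 α⟩
      · obtain ⟨α, hα, h2⟩ := hsmin γ hγ
        exact ⟨α, hα, h1 α h2⟩
    obtain ⟨α, hα, hαW⟩ := hex
    exact ⟨l α, hα, fun z hz => hW'.upper _ _ (mem_up.1 hz.1) hαW⟩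
  -- maximal `x`
  have hmaxx : (∀ z, le x z → z = x) → ∃ d ∈ D, up d ∩ up x ⊆ W := by
    intro hx
    by_cases hall : ∀ d ∈ D, le d x
    · refine ⟨d0, hd0, ?_⟩
      rintro z ⟨_, hz⟩
      rw [hx z (mem_up.1 hz)]
      exact hin x hall (le_rfl' x)
    · push Not at hall
      obtain ⟨d, hd, hdx⟩ := hall
      refine ⟨d, hd, ?_⟩
      rintro z ⟨hz1, hz2⟩
      exfalso
      apply hdx
      rw [← hx z (mem_up.1 hz2)]
      exact mem_up.1 hz1
  cases x with
  | o => exact hcase (by simp [le])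
  | l α0 =>
    rcases le_total α0 s with h1 | h1
    · exact hcase h1
    · refine ⟨d0, hd0, ?_⟩
      rintro z ⟨_, hz⟩
      refine hin z (fun d hd => ?_) (mem_up.1 hz)
      apply hub z _ d hd
      intro α hα
      refine le_trans' (q := l α0) ?_ (mem_up.1 hz)
      exact (hsU α hα).trans h1
  | b β => exact hmaxx (by intro z hz; cases z <;> simp only [le] at hz; rw [hz])
  | a μ => exact hmaxx (by intro z hz; cases z <;> simp only [le] at hz; rw [hz])
  | y =>
    have haW : ∀ μ, a μ ∈ W := fun μ => hin _ (hub _ fun _ _ => by simp [le]) (by simp [le])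
    -- it suffices to find a bound
    have hsuff : (∃ γ : WithTop Lam, γ < s ∧ ∀ β : Lam, γ < β → b β ∈ W) →
        ∃ d ∈ D, up d ∩ up y ⊆ W := by
      rintro ⟨γ, hγ, hγW⟩
      obtain ⟨α, hα, h2⟩ := hsmin γ hγ
      refine ⟨l α, hα, ?_⟩
      rintro z ⟨hz1, hz2⟩
      rw [mem_up] at hz1 hz2
      cases z with
      | o => simp only [le] at hz2
      | l _ => simp only [le] at hz2
      | y => simp only [le] at hz1
      | b β => exact hγW β (h2.trans_le hz1)
      | a μ => exact haW μ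
    apply hsuff
    have hbW : ∀ β : Lam, s ≤ β → b β ∈ W := by
      intro β hβ
      exact hin _ (hub _ fun α hα => (hsU α hα).trans hβ) (by simp [le])
    cases s with
    | coe σ =>
      rcases hW'.lim σ (haW σ) with h1 | ⟨γ, hγ, h1⟩
      · exfalso
        obtain ⟨α, hα⟩ := hAne
        have h2 := hslt α hα
        cases α with
        | top => exact absurd h2 (not_lt.2 le_top)
        | coe α => exact h1 α (WithTop.coe_lt_coe.1 h2)
      · refine ⟨γ, WithTop.coe_lt_coe.2 hγ, fun β hβ => ?_⟩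
        rcases lt_or_ge β σ with h2 | h2
        · exact h1 β (WithTop.coe_lt_coe.1 hβ) h2
        · exact hbW β (WithTop.coe_le_coe.2 h2)
    | top =>
      by_contra hno
      push Not at hno
      have hB : ∀ δ : Lam, ∃ β ∈ {β | b β ∉ W}, δ < β := by
        intro δ
        obtain ⟨β, hβ, h1⟩ := hno δ (WithTop.coe_lt_top δ)
        exact ⟨β, h1, WithTop.coe_lt_coe.1 hβ⟩
      obtain ⟨μ, ⟨γ0, hγ0⟩, hμ⟩ := exists_limit hB
      rcases hW'.lim μ (haW μ) with h1 | ⟨γ, hγ, h1⟩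
      · exact h1 γ0 hγ0
      · obtain ⟨β, hβ, h2, h3⟩ := hμ γ hγ
        exact hβ (h1 β h2 h3)

theorem isStrongDSpace_Z : IsStrongDSpace Z := ⟨inferInstance, strong⟩

/-! ### Spaces of functions into `Z` -/

lemma specLE_inducing {X : Type u} {Y : Type v} [TopologicalSpace X] [TopologicalSpace Y]
    {f : X → Y} (hf : IsInducing f) {p q : X} : SpecLE p q ↔ SpecLE (f p) (f q) := by
  rw [SpecLE, SpecLE, hf.closure_eq_preimage_closure_image, image_singleton]
  rfl

lemma specLE_pi {I : Type u} {p q : I → Z} : SpecLE p q ↔ ∀ i, le (p i) (q i) := by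
  have h1 : SpecLE p q ↔ q ⤳ p := specializes_iff_mem_closure.symm
  rw [h1, specializes_pi]
  apply forall_congr'
  intro i
  rw [specializes_iff_mem_closure]
  exact specLE_iff

/-- The general obstruction. -/
theorem not_strong {T : Type u} [TopologicalSpace T] {I : Type v} (e : T → I → Z)
    (he : IsInducing e) (O : Set I) (x0 x1 : I) (h0 : x0 ∉ O) (h1 : x1 ∈ O)
    (c : Lam → T) (hc : ∀ α i, e (c α) i = l α) (f0 : T)
    (hf1 : ∀ i, i ∈ O → e f0 i = y) (hf2 : ∀ i, i ∉ O → e f0 i = o)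
    (g : Lam → T) (hg1 : ∀ α i, i ∈ O → e (g α) i = b α)
    (hg2 : ∀ α i, i ∉ O → e (g α) i = l α) : ¬ IsStrongDSpace T := by
  intro hT
  have hle : ∀ p q : T, SpecLE p q ↔ ∀ i, le (e p i) (e q i) := fun p q => by
    rw [specLE_inducing he, specLE_pi]
  let V : Lam → Set Z := fun γ => {p | (∃ α, (γ : WithTop Lam) < α ∧ p = l α) ∨
    (∃ β, p = b β) ∨ ∃ μ, p = a μ}
  let W : Lam → Set Z := fun γ => {p | p = a γ ∨ ∃ β, β < γ ∧ p = b β}
  have hVo : ∀ γ, IsOpen (V γ) := fun γ => isOpen_iff.2 (openZ_V γ)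
  have hWo : ∀ γ, IsOpen (W γ) := fun γ => isOpen_iff.2 (openZ_W γ)
  let U : Set T := ⋃ γ, {t | e t x0 ∈ V γ} ∩ {t | e t x1 ∈ W γ}
  have hcont : ∀ i, Continuous fun t => e t i := fun i =>
    (continuous_apply i).comp he.continuous
  have hU : IsOpen U := isOpen_iUnion fun γ =>
    ((hVo γ).preimage (hcont x0)).inter ((hWo γ).preimage (hcont x1))
  obtain ⟨α0⟩ : Nonempty Lam := ⟨Ordinal.ToType.mk ⟨0, Ordinal.omega_pos 1⟩⟩
  obtain ⟨d, ⟨α, rfl⟩, hd⟩ := hT.strong (range c) ⟨⟨_, ⟨α0, rfl⟩⟩, by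
      rintro _ ⟨α, rfl⟩ _ ⟨β, rfl⟩
      refine ⟨c (max α β), ⟨_, rfl⟩, ?_, ?_⟩
      · rw [hle]
        intro i
        rw [hc, hc]
        simp [le]
      · rw [hle]
        intro i
        rw [hc, hc]
        simp [le]⟩ f0 U hU (by
      rintro t ⟨ht1, ht2⟩
      have hall : ∀ (α : Lam) i, le (l α) (e t i) := by
        intro α i
        have h1 : SpecLE (c α) t := mem_iInter₂.1 ht1 (c α) ⟨α, rfl⟩
        have := (hle _ _).1 h1 i
        rwa [hc] at this
      have hy : le y (e t x1) := by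
        have := (hle _ _).1 ht2 x1
        rwa [hf1 x1 h1] at this
      have hx1 : ∃ μ, e t x1 = a μ := by
        have hl := fun α => hall α x1
        cases hz : e t x1 with
        | o => rw [hz] at hy; simp only [le] at hy
        | l _ => rw [hz] at hy; simp only [le] at hy
        | y =>
          have := hl α0
          rw [hz] at this
          simp only [le] at this
        | b β =>
          exfalso
          obtain ⟨α, hα⟩ := exists_gt β
          have := hl α
          rw [hz] at this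
          simp only [le] at this
          exact absurd (WithTop.coe_le_coe.1 this) (not_le.2 hα)
        | a μ => exact ⟨μ, rfl⟩
      obtain ⟨μ, hμ⟩ := hx1
      refine mem_iUnion.2 ⟨μ, ?_, ?_⟩
      · change e t x0 ∈ V μ
        have hl := fun α => hall α x0
        cases hz : e t x0 with
        | o =>
          have := hl α0
          rw [hz] at this
          simp only [le] at this
        | l α' =>
          left
          refine ⟨α', ?_, rfl⟩
          obtain ⟨α, hα⟩ := exists_gt μ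
          have := hl α
          rw [hz] at this
          exact (WithTop.coe_lt_coe.2 hα).trans_le this
        | y =>
          have := hl α0
          rw [hz] at this
          simp only [le] at this
        | b β => exact Or.inr (Or.inl ⟨β, rfl⟩)
        | a μ' => exact Or.inr (Or.inr ⟨μ', rfl⟩)
      · change e t x1 ∈ W μ
        rw [hμ]
        exact Or.inl rfl)
  have hgα : g α ∈ U := by
    apply hd
    refine ⟨?_, ?_⟩
    · change SpecLE _ _
      rw [hle]
      intro i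
      rw [hc]
      by_cases hi : i ∈ O
      · rw [hg1 α i hi]
        simp [le]
      · rw [hg2 α i hi]
        simp [le]
    · change SpecLE _ _
      rw [hle]
      intro i
      by_cases hi : i ∈ O
      · rw [hf1 i hi, hg1 α i hi]
        simp [le]
      · rw [hf2 i hi]
        simp [le]
  obtain ⟨γ, hγ1, hγ2⟩ := mem_iUnion.1 hgα
  rw [mem_ofPred_eq, hg2 α x0 h0] at hγ1
  rw [mem_ofPred_eq, hg1 α x1 h1] at hγ2
  have hlt : γ < α := by
    rcases hγ1 with ⟨α', h1, h2⟩ | ⟨β, h2⟩ | ⟨μ, h2⟩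
    · simp only [Z.l.injEq] at h2
      rw [← h2] at h1
      exact WithTop.coe_lt_coe.1 h1
    · simp at h2
    · simp at h2
  have hlt' : α < γ := by
    rcases hγ2 with h2 | ⟨β, h1, h2⟩
    · simp at h2
    · simp only [Z.b.injEq] at h2
      rwa [← h2] at h1
  exact lt_asymm hlt hlt'

end Q178.StrongD
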